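import Mathlib.RingTheory.Flat.TorsionFree
import Mathlib.LinearAlgebra.Matrix.Rank
import Mathlib.RingTheory.PicardGroup
import Mathlib.Analysis.Complex.Exponential
import Mathlib.Algebra.Order.Star.Real
import Mathlib.Analysis.CStarAlgebra.Classes
import Mathlib.RingTheory.SimpleRing.Principal
import Mathlib.RingTheory.TotallySplit
import Mathlib.RingTheory.Etale.Weakly
import Mathlib.RingTheory.Henselian
import Mathlib.RingTheory.RegularLocalRing.Defs
import Mathlib.Tactic.Polynomial.Basic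

-- ======== part 0: formerly Pool.Agent.Lib.helper48.MatroidCore
section MrgPart0

set_option autoImplicit false

namespace Pool.Agent.Lib.helper48.Matroid

open Finset

section Abstract

variable {ι : Type} [DecidableEq ι]

/-- The alternating sum over subsets `X` of `S` of `w ^ r (X ∪ F)`. -/
noncomputable def Zf (r : Finset ι → ℕ) (w : ℂ) (S F : Finset ι) : ℂ :=
  ∑ X ∈ S.powerset, (-1 : ℂ) ^ X.card * w ^ r (X ∪ F)

lemma Zf_insert (r : Finset ι → ℕ) (w : ℂ) (S F : Finset ι) (e : ι) (he : e ∉ S) :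
    Zf r w (insert e S) F = Zf r w S F - Zf r w S (insert e F) := by
  unfold Zf
  rw [Finset.sum_powerset_insert he, sub_eq_add_neg, ← Finset.sum_neg_distrib]
  congr 1
  refine Finset.sum_congr rfl fun X hX => ?_
  have hX' : e ∉ X := fun h => he (Finset.mem_powerset.1 hX h)
  rw [Finset.card_insert_of_notMem hX', Finset.insert_union, Finset.union_insert, pow_succ]
  ring

/-- Peeling off the set `N` one element at a time. -/
lemma peel (r : Finset ι → ℕ) (w : ℂ) (x B : ℝ) (hx : 0 ≤ x) (hB : 0 ≤ B)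
    (hspan : ∀ (F : Finset ι) (e : ι), r (insert e F) = r F + 1 ∨
      ∀ X : Finset ι, r (X ∪ insert e F) = r (X ∪ F))
    (S : Finset ι) (N : Finset ι) :
    Disjoint S N → ∀ F : Finset ι,
      (∀ Y ⊆ N, ‖Zf r w S (F ∪ Y)‖ ≤ B * x ^ r (F ∪ Y)) →
      ‖Zf r w (S ∪ N) F‖ ≤ (1 + x) ^ N.card * (B * x ^ r F) := by
  induction N using Finset.induction_on with
  | empty =>
    intro _ F h
    simpa using h ∅ (Finset.empty_subset _)
  | insert e N heN ih =>
    intro hd F h
    have hd' : Disjoint S N := hd.mono_right (Finset.subset_insert _ _)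
    have heS : e ∉ S := fun hS => (Finset.disjoint_left.1 hd) hS (Finset.mem_insert_self _ _)
    have heSN : e ∉ S ∪ N := by simp [heS, heN]
    rw [Finset.union_insert, Zf_insert r w _ _ _ heSN, Finset.card_insert_of_notMem heN]
    rcases hspan F e with h1 | h2
    · have a1 := ih hd' F (fun Y hY => h Y (hY.trans (Finset.subset_insert _ _)))
      have a2 := ih hd' (insert e F) (fun Y hY => by
        have := h (insert e Y) (Finset.insert_subset_insert _ hY)
        rwa [Finset.union_insert, ← Finset.insert_union] at this)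
      rw [h1] at a2
      calc ‖Zf r w (S ∪ N) F - Zf r w (S ∪ N) (insert e F)‖
          ≤ ‖Zf r w (S ∪ N) F‖ + ‖Zf r w (S ∪ N) (insert e F)‖ := norm_sub_le _ _
        _ ≤ (1 + x) ^ N.card * (B * x ^ r F) + (1 + x) ^ N.card * (B * x ^ (r F + 1)) :=
          add_le_add a1 a2
        _ = (1 + x) ^ (N.card + 1) * (B * x ^ r F) := by ring
    · have : Zf r w (S ∪ N) (insert e F) = Zf r w (S ∪ N) F := by
        unfold Zf
        exact Finset.sum_congr rfl fun X _ => by rw [h2 X]
      rw [this, sub_self, norm_zero]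
      positivity

lemma chain (r : Finset ι → ℕ) (w : ℂ) (x : ℝ) (hx : x ≤ 1) (S N : Finset ι) :
    Disjoint S N →
    (∀ T e, T ⊆ S ∪ N → e ∈ T → (1 - x) * ‖Zf r w (T.erase e) ∅‖ ≤ ‖Zf r w T ∅‖) →
    (1 - x) ^ N.card * ‖Zf r w S ∅‖ ≤ ‖Zf r w (S ∪ N) ∅‖ := by
  induction N using Finset.induction_on with
  | empty => intro _ _; simp
  | insert e N heN ih =>
    intro hd h
    have hd' : Disjoint S N := hd.mono_right (Finset.subset_insert _ _)
    have heS : e ∉ S := fun hS => (Finset.disjoint_left.1 hd) hS (Finset.mem_insert_self _ _)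
    have heSN : e ∉ S ∪ N := by simp [heS, heN]
    have a1 := ih hd' (fun T e' hT he' => h T e'
      (hT.trans (Finset.union_subset_union_right (Finset.subset_insert _ _))) he')
    have a2 := h (S ∪ insert e N) e subset_rfl (by simp)
    rw [Finset.union_insert, Finset.erase_insert heSN] at a2
    rw [Finset.card_insert_of_notMem heN, Finset.union_insert, pow_succ]
    have h1x : 0 ≤ 1 - x := by linarith
    calc (1 - x) ^ N.card * (1 - x) * ‖Zf r w S ∅‖
        = (1 - x) * ((1 - x) ^ N.card * ‖Zf r w S ∅‖) := by ring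
      _ ≤ (1 - x) * ‖Zf r w (S ∪ N) ∅‖ := mul_le_mul_of_nonneg_left a1 h1x
      _ ≤ _ := a2

/-- The main induction. -/
theorem main_induction (r : Finset ι → ℕ) (δ : Finset ι → Finset ι → ℕ) (d : ℕ) (w : ℂ)
    (x K : ℝ) (hK : 1 ≤ K) (hx1 : x < 1) (hwx : ‖w‖ * K = x)
    (hnum : ∀ m ≤ d, (1 + x) ^ m ≤ K * (1 - x) ^ m)
    (hspan : ∀ (F : Finset ι) (e : ι), r (insert e F) = r F + 1 ∨
      ∀ X : Finset ι, r (X ∪ insert e F) = r (X ∪ F))
    (hsingle : ∀ e, r {e} = 1)
    (hδle : ∀ S F, δ S F ≤ r F)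
    (h0 : ∀ S F, δ S F = 0 → ∀ X ⊆ S, r (X ∪ F) = r X + r F)
    (h1 : ∀ S F, Disjoint S F → 0 < δ S F → ∃ N ⊆ S, N.Nonempty ∧ N.card ≤ d ∧
      ∀ Y ⊆ N, δ (S \ N) (F ∪ Y) + r F + 1 ≤ δ S F + r (F ∪ Y))
    (S : Finset ι) :
    (∀ e ∈ S, (1 - x) * ‖Zf r w (S.erase e) ∅‖ ≤ ‖Zf r w S ∅‖) ∧
    (∀ F, Disjoint S F → ‖Zf r w S F‖ ≤ ‖w‖ ^ r F * K ^ δ S F * ‖Zf r w S ∅‖) := by
  have hK0 : 0 < K := by linarith
  have hx0 : 0 ≤ x := by rw [← hwx]; positivity
  induction S using Finset.strongInduction with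
  | H S ih =>
  have part1 : ∀ e ∈ S, (1 - x) * ‖Zf r w (S.erase e) ∅‖ ≤ ‖Zf r w S ∅‖ := by
    intro e he
    have hlt : S.erase e ⊂ S := Finset.erase_ssubset he
    have a := (ih _ hlt).2 {e} (by simp)
    have hz : Zf r w S ∅ = Zf r w (S.erase e) ∅ - Zf r w (S.erase e) {e} := by
      have := Zf_insert r w (S.erase e) ∅ e (by simp)
      rwa [Finset.insert_erase he, Finset.insert_empty] at this
    have hδ : K ^ δ (S.erase e) {e} ≤ K := by
      have : δ (S.erase e) {e} ≤ 1 := by simpa [hsingle e] using hδle (S.erase e) {e}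
      simpa using pow_le_pow_right₀ hK this
    rw [hsingle e, pow_one] at a
    have b : ‖Zf r w (S.erase e) {e}‖ ≤ x * ‖Zf r w (S.erase e) ∅‖ := by
      refine a.trans ?_
      rw [← hwx]
      gcongr
    have c := norm_sub_norm_le (Zf r w (S.erase e) ∅) (Zf r w (S.erase e) {e})
    rw [← hz] at c
    linarith
  refine ⟨part1, fun F hSF => ?_⟩
  rcases Nat.eq_zero_or_pos (δ S F) with hz | hpos
  · have : Zf r w S F = w ^ r F * Zf r w S ∅ := by
      unfold Zf
      rw [Finset.mul_sum]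
      refine Finset.sum_congr rfl fun X hX => ?_
      rw [h0 S F hz X (Finset.mem_powerset.1 hX), Finset.union_empty, pow_add]
      ring
    rw [this, hz, norm_mul, norm_pow]
    simp
  · obtain ⟨N, hNS, hNne, hNd, hN⟩ := h1 S F hSF hpos
    have hlt : S \ N ⊂ S := Finset.sdiff_ssubset hNS hNne
    have hdisj : Disjoint (S \ N) N := Finset.sdiff_disjoint
    have hun : S \ N ∪ N = S := Finset.sdiff_union_of_subset hNS
    set z := ‖Zf r w (S \ N) ∅‖ with hz
    have hz0 : 0 ≤ z := norm_nonneg _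
    set B : ℝ := K ^ δ S F / K ^ (r F + 1) * z with hB
    have hB0 : 0 ≤ B := by positivity
    have a := peel r w x B hx0 hB0 hspan (S \ N) N hdisj F (fun Y hY => by
      have hdj : Disjoint (S \ N) (F ∪ Y) := by
        rw [Finset.disjoint_union_right]
        exact ⟨hSF.mono_left Finset.sdiff_subset, hdisj.mono_right hY⟩
      refine ((ih _ hlt).2 (F ∪ Y) hdj).trans ?_
      have hk : K ^ (δ (S \ N) (F ∪ Y) + r F + 1) ≤ K ^ (δ S F + r (F ∪ Y)) :=
        pow_le_pow_right₀ hK (hN Y hY)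
      have hk' : K ^ δ (S \ N) (F ∪ Y) ≤ K ^ δ S F / K ^ (r F + 1) * K ^ r (F ∪ Y) := by
        rw [div_mul_eq_mul_div, le_div_iff₀ (by positivity), ← pow_add, ← pow_add, ← add_assoc]
        exact hk
      rw [← hz, hB, ← hwx, mul_pow]
      calc ‖w‖ ^ r (F ∪ Y) * K ^ δ (S \ N) (F ∪ Y) * z
          ≤ ‖w‖ ^ r (F ∪ Y) * (K ^ δ S F / K ^ (r F + 1) * K ^ r (F ∪ Y)) * z := by gcongr
        _ = _ := by ring)
    have b := chain r w x hx1.le (S \ N) N hdisj (fun T e hT he => by
      rw [hun] at hT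
      rcases hT.eq_or_ssubset with rfl | hT'
      · exact part1 e he
      · exact (ih T hT').1 e he)
    rw [hun] at a b
    rw [← hz] at b
    have c := hnum N.card hNd
    refine a.trans ?_
    have e1 : B * x ^ r F = ‖w‖ ^ r F * K ^ δ S F / K * z := by
      rw [hB, ← hwx, mul_pow, pow_succ]
      field_simp
    rw [e1]
    calc (1 + x) ^ N.card * (‖w‖ ^ r F * K ^ δ S F / K * z)
        ≤ (K * (1 - x) ^ N.card) * (‖w‖ ^ r F * K ^ δ S F / K * z) := by gcongr
      _ = ‖w‖ ^ r F * K ^ δ S F * ((1 - x) ^ N.card * z) := by field_simp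
      _ ≤ _ := by gcongr

theorem Zf_ne_zero (r : Finset ι → ℕ) (δ : Finset ι → Finset ι → ℕ) (d : ℕ) (w : ℂ)
    (hw : ‖w‖ * (Real.exp 1 * (2 * d + 1)) < 1)
    (hempty : r ∅ = 0)
    (hspan : ∀ (F : Finset ι) (e : ι), r (insert e F) = r F + 1 ∨
      ∀ X : Finset ι, r (X ∪ insert e F) = r (X ∪ F))
    (hsingle : ∀ e, r {e} = 1)
    (hδle : ∀ S F, δ S F ≤ r F)
    (h0 : ∀ S F, δ S F = 0 → ∀ X ⊆ S, r (X ∪ F) = r X + r F)
    (h1 : ∀ S F, Disjoint S F → 0 < δ S F → ∃ N ⊆ S, N.Nonempty ∧ N.card ≤ d ∧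
      ∀ Y ⊆ N, δ (S \ N) (F ∪ Y) + r F + 1 ≤ δ S F + r (F ∪ Y))
    (S : Finset ι) : Zf r w S ∅ ≠ 0 := by
  set K := Real.exp 1 with hKdef
  set x := ‖w‖ * K with hx
  have hK : 1 ≤ K := Real.one_le_exp (by norm_num)
  have hx0 : 0 ≤ x := by positivity
  have hd0 : (0 : ℝ) ≤ d := Nat.cast_nonneg d
  have hxd : x * (2 * d + 1) < 1 := by rw [hx, mul_assoc]; exact hw
  have hx1 : x < 1 := by nlinarith
  have hnum : ∀ m ≤ d, (1 + x) ^ m ≤ K * (1 - x) ^ m := by
    intro m hm
    rcases Nat.eq_zero_or_pos d with hd | hd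
    · have : m = 0 := by omega
      subst this
      simpa using hK
    · have hdpos : (0 : ℝ) < d := by exact_mod_cast hd
      have s1 : 1 + x ≤ (1 / d + 1) * (1 - x) := by
        rw [div_add_one hdpos.ne', div_mul_eq_mul_div, le_div_iff₀ hdpos]
        nlinarith
      have s2 : (1 / (d : ℝ) + 1) ≤ Real.exp (1 / d) := Real.add_one_le_exp _
      have s3 : Real.exp (1 / (d : ℝ)) ^ m ≤ K := by
        rw [← Real.exp_nat_mul, hKdef]
        apply Real.exp_le_exp.2
        rw [mul_one_div, div_le_one hdpos]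
        exact_mod_cast hm
      have h1x : 0 ≤ 1 - x := by linarith
      calc (1 + x) ^ m ≤ (Real.exp (1 / d) * (1 - x)) ^ m := by
            gcongr
            exact s1.trans (mul_le_mul_of_nonneg_right s2 h1x)
        _ = Real.exp (1 / d) ^ m * (1 - x) ^ m := mul_pow _ _ _
        _ ≤ K * (1 - x) ^ m := by gcongr
  have b := chain r w x hx1.le ∅ S (by simp) (fun T e _ he =>
    (main_induction r δ d w x K hK hx1 rfl hnum hspan hsingle hδle h0 h1 T).1 e he)
  have hz : Zf r w ∅ ∅ = 1 := by simp [Zf, hempty]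
  rw [hz, Finset.empty_union, norm_one, mul_one] at b
  have : 0 < (1 - x) ^ S.card := pow_pos (by linarith) _
  intro h
  rw [h, norm_zero] at b
  linarith

end Abstract

end Pool.Agent.Lib.helper48.Matroid

end MrgPart0

-- ======== part 1: formerly Pool.Agent.Lib.helper48.MatroidLinear
section MrgPart1

set_option autoImplicit false

namespace Pool.Agent.Lib.helper48.Matroid

open Finset Module

variable {𝔽 : Type*} [Field 𝔽] {ι : Type} [DecidableEq ι] [Fintype ι]

/-- Restriction of a vector to the coordinates in `X`. -/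
def restr (𝔽 : Type*) [Field 𝔽] (X : Finset ι) : (ι → 𝔽) →ₗ[𝔽] (ι → 𝔽) where
  toFun v := fun j => if j ∈ X then v j else 0
  map_add' u v := by
    funext j
    by_cases h : j ∈ X <;> simp [h]
  map_smul' c v := by
    funext j
    by_cases h : j ∈ X <;> simp [h]

omit [Fintype ι] in
lemma restr_apply (X : Finset ι) (v : ι → 𝔽) (j : ι) :
    restr 𝔽 X v j = if j ∈ X then v j else 0 := rfl

omit [Fintype ι] in
lemma restr_comp (X Y : Finset ι) (h : X ⊆ Y) :
    (restr 𝔽 X).comp (restr 𝔽 Y) = restr 𝔽 X := by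
  ext1 v
  funext j
  by_cases hj : j ∈ X
  · simp [restr_apply, hj, h hj]
  · simp [restr_apply, hj]

/-- Rank of a space of vectors restricted to `X`. -/
noncomputable def rk (W : Submodule 𝔽 (ι → 𝔽)) (X : Finset ι) : ℕ :=
  finrank 𝔽 (W.map (restr 𝔽 X))

lemma rk_mono_right (W : Submodule 𝔽 (ι → 𝔽)) {X Y : Finset ι} (h : X ⊆ Y) :
    rk W X ≤ rk W Y := by
  unfold rk
  rw [← restr_comp X Y h, Submodule.map_comp]
  exact Submodule.finrank_map_le _ _

lemma rk_mono_left {W W' : Submodule 𝔽 (ι → 𝔽)} (h : W ≤ W') (X : Finset ι) :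
    rk W X ≤ rk W' X :=
  Submodule.finrank_mono (Submodule.map_mono h)

lemma rk_union_le (W : Submodule 𝔽 (ι → 𝔽)) (X Y : Finset ι) :
    rk W (X ∪ Y) ≤ rk W X + rk W Y := by
  have h1 : W.map (restr 𝔽 (X ∪ Y)) ≤ W.map (restr 𝔽 X) ⊔ W.map (restr 𝔽 (Y \ X)) := by
    rintro _ ⟨v, hv, rfl⟩
    have : restr 𝔽 (X ∪ Y) v = restr 𝔽 X v + restr 𝔽 (Y \ X) v := by
      funext j
      by_cases hX : j ∈ X <;> by_cases hY : j ∈ Y <;> simp [restr_apply, hX, hY]
    rw [this]
    exact Submodule.add_mem_sup ⟨v, hv, rfl⟩ ⟨v, hv, rfl⟩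
  have h2 := Submodule.finrank_mono h1
  have h3 := Submodule.finrank_add_le_finrank_add_finrank (W.map (restr 𝔽 X))
    (W.map (restr 𝔽 (Y \ X)))
  have h4 : rk W (Y \ X) ≤ rk W Y := rk_mono_right W Finset.sdiff_subset
  unfold rk at *
  omega

lemma rk_add_le (W W₀ : Submodule 𝔽 (ι → 𝔽)) (hW : W₀ ≤ W) (X F : Finset ι)
    (hX : ∀ v ∈ W₀, ∀ j ∈ X, v j = 0) :
    rk W X + rk W₀ F ≤ rk W (X ∪ F) := by
  set U := W.map (restr 𝔽 (X ∪ F)) with hU
  have h1 := LinearMap.finrank_range_add_finrank_ker ((restr 𝔽 X).domRestrict U)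
  have h2 : LinearMap.range ((restr 𝔽 X).domRestrict U) = W.map (restr 𝔽 X) := by
    rw [LinearMap.range_domRestrict, hU, ← Submodule.map_comp,
      restr_comp _ _ Finset.subset_union_left]
  have h3 : W₀.map (restr 𝔽 (X ∪ F)) ≤
      (LinearMap.ker ((restr 𝔽 X).domRestrict U)).map U.subtype := by
    rintro _ ⟨v, hv, rfl⟩
    refine ⟨⟨restr 𝔽 (X ∪ F) v, ⟨v, hW hv, rfl⟩⟩, ?_, rfl⟩
    simp only [SetLike.mem_coe, LinearMap.mem_ker, LinearMap.domRestrict_apply]
    funext j
    by_cases hj : j ∈ X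
    · simp [restr_apply, hj, hX v hv j hj]
    · simp [restr_apply, hj]
  have h4 := Submodule.finrank_mono h3
  have h5 := Submodule.finrank_map_le U.subtype (LinearMap.ker ((restr 𝔽 X).domRestrict U))
  have h6 : rk W₀ F ≤ rk W₀ (X ∪ F) := rk_mono_right W₀ Finset.subset_union_right
  rw [h2] at h1
  unfold rk at *
  rw [← hU]
  omega

/-- The span of those vectors of `s` that vanish on `S`. -/
def vanish (s : Set (ι → 𝔽)) (S : Finset ι) : Submodule 𝔽 (ι → 𝔽) :=
  Submodule.span 𝔽 {v | v ∈ s ∧ ∀ j ∈ S, v j = 0}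

omit [DecidableEq ι] [Fintype ι] in
lemma vanish_le (s : Set (ι → 𝔽)) (S : Finset ι) : vanish s S ≤ Submodule.span 𝔽 s :=
  Submodule.span_mono fun _ hv => hv.1

omit [DecidableEq ι] [Fintype ι] in
lemma vanish_zero (s : Set (ι → 𝔽)) (S : Finset ι) :
    ∀ v ∈ vanish s S, ∀ j ∈ S, v j = 0 := by
  intro v hv j hj
  induction hv using Submodule.span_induction with
  | mem x hx => exact hx.2 j hj
  | zero => rfl
  | add x y _ _ hx hy => simp [hx, hy]
  | smul a x _ hx => simp [hx]

/-- The defect. -/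
noncomputable def defect (s : Set (ι → 𝔽)) (S F : Finset ι) : ℕ :=
  rk (Submodule.span 𝔽 s) F - rk (vanish s S) F

lemma defect_zero (s : Set (ι → 𝔽)) (S F : Finset ι) (h : defect s S F = 0)
    (X : Finset ι) (hX : X ⊆ S) :
    rk (Submodule.span 𝔽 s) (X ∪ F) = rk (Submodule.span 𝔽 s) X + rk (Submodule.span 𝔽 s) F := by
  have h1 := rk_union_le (Submodule.span 𝔽 s) X F
  have h2 := rk_add_le (Submodule.span 𝔽 s) (vanish s S) (vanish_le s S) X F
    (fun v hv j hj => vanish_zero s S v hv j (hX hj))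
  unfold defect at h
  omega

open Classical in
lemma defect_pos (s : Set (ι → 𝔽)) (d : ℕ)
    (hs : ∀ v ∈ s, (Finset.univ.filter (fun j => v j ≠ 0)).card ≤ d + 1)
    (S F : Finset ι) (hSF : Disjoint S F) (h : 0 < defect s S F) :
    ∃ N ⊆ S, N.Nonempty ∧ N.card ≤ d ∧
      ∀ Y ⊆ N, defect s (S \ N) (F ∪ Y) + rk (Submodule.span 𝔽 s) F + 1 ≤
        defect s S F + rk (Submodule.span 𝔽 s) (F ∪ Y) := by
  have hex : ∃ v ∈ s, restr 𝔽 F v ∉ (vanish s S).map (restr 𝔽 F) := by
    by_contra hcon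
    push Not at hcon
    have : (Submodule.span 𝔽 s).map (restr 𝔽 F) ≤ (vanish s S).map (restr 𝔽 F) := by
      rw [Submodule.map_span, Submodule.span_le]
      rintro _ ⟨v, hv, rfl⟩
      exact hcon v hv
    have := Submodule.finrank_mono this
    unfold defect rk at h
    omega
  obtain ⟨v, hvs, hv⟩ := hex
  have hF : ∃ j ∈ F, v j ≠ 0 := by
    by_contra hcon
    push Not at hcon
    apply hv
    have : restr 𝔽 F v = 0 := by
      funext j
      by_cases hj : j ∈ F
      · simp [restr_apply, hj, hcon j hj]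
      · simp [restr_apply, hj]
    rw [this]
    exact Submodule.zero_mem _
  obtain ⟨j₀, hj₀F, hj₀⟩ := hF
  refine ⟨S.filter (fun j => v j ≠ 0), Finset.filter_subset _ _, ?_, ?_, ?_⟩
  · by_contra hcon
    rw [Finset.not_nonempty_iff_eq_empty, Finset.filter_eq_empty_iff] at hcon
    apply hv
    refine ⟨v, Submodule.subset_span ⟨hvs, fun j hj => ?_⟩, rfl⟩
    simpa using hcon hj
  · have hj₀S : j₀ ∉ S.filter (fun j => v j ≠ 0) := fun hh =>
      (Finset.disjoint_left.1 hSF) (Finset.mem_filter.1 hh).1 hj₀F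
    have hsub : insert j₀ (S.filter (fun j => v j ≠ 0)) ⊆
        Finset.univ.filter (fun j => v j ≠ 0) := by
      intro j hj
      rcases Finset.mem_insert.1 hj with rfl | hj
      · simpa using hj₀
      · simpa using (Finset.mem_filter.1 hj).2
    have := Finset.card_le_card hsub
    rw [Finset.card_insert_of_notMem hj₀S] at this
    have := hs v hvs
    omega
  · intro Y _
    set S' := S \ S.filter (fun j => v j ≠ 0) with hS'
    have hle : vanish s S ≤ vanish s S' :=
      Submodule.span_mono fun u hu => ⟨hu.1, fun j hj => hu.2 j (Finset.mem_sdiff.1 hj).1⟩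
    have hmem : v ∈ vanish s S' := by
      refine Submodule.subset_span ⟨hvs, fun j hj => ?_⟩
      have h1 := Finset.mem_sdiff.1 hj
      by_contra hne
      exact h1.2 (Finset.mem_filter.2 ⟨h1.1, hne⟩)
    have hlt : (vanish s S).map (restr 𝔽 F) < (vanish s S').map (restr 𝔽 F) :=
      lt_of_le_of_ne (Submodule.map_mono hle) (fun heq => hv (heq ▸ ⟨v, hmem, rfl⟩))
    have a1 : rk (vanish s S) F < rk (vanish s S') F := Submodule.finrank_lt_finrank_of_lt hlt
    have a2 : rk (vanish s S') F ≤ rk (vanish s S') (F ∪ Y) :=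
      rk_mono_right _ Finset.subset_union_left
    have a3 : rk (vanish s S') (F ∪ Y) ≤ rk (Submodule.span 𝔽 s) (F ∪ Y) :=
      rk_mono_left (vanish_le _ _) _
    have a4 : rk (vanish s S) F ≤ rk (Submodule.span 𝔽 s) F := rk_mono_left (vanish_le _ _) _
    unfold defect
    omega

/-- Column rank of a set of columns. -/
noncomputable def colrk {κ : Type} (A : Matrix κ ι 𝔽) (X : Finset ι) : ℕ :=
  finrank 𝔽 (Submodule.span 𝔽 ((fun j : ι => fun i : κ => A i j) '' (X : Set ι)))

lemma colrk_eq {κ : Type} [Fintype κ] (A : Matrix κ ι 𝔽) (X : Finset ι) :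
    colrk A X = rk (Submodule.span 𝔽 (Set.range A)) X := by
  let B : Matrix κ ι 𝔽 := fun i j => if j ∈ X then A i j else 0
  have h1 := Matrix.rank_eq_finrank_span_cols B
  have h2 := Matrix.rank_eq_finrank_span_row B
  have e1 : Submodule.span 𝔽 (Set.range B.col) =
      Submodule.span 𝔽 ((fun j : ι => fun i : κ => A i j) '' (X : Set ι)) := by
    apply le_antisymm
    · rw [Submodule.span_le]
      rintro _ ⟨j, rfl⟩
      by_cases hj : j ∈ X
      · refine Submodule.subset_span ⟨j, hj, ?_⟩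
        funext i
        simp [B, Matrix.col, hj]
      · have : B.col j = 0 := by
          funext i
          simp [B, Matrix.col, hj]
        rw [this]
        exact Submodule.zero_mem _
    · rw [Submodule.span_le]
      rintro _ ⟨j, hj, rfl⟩
      refine Submodule.subset_span ⟨j, ?_⟩
      funext i
      have hj' : j ∈ X := hj
      simp [B, Matrix.col, hj']
  have e2 : Submodule.span 𝔽 (Set.range B.row) =
      (Submodule.span 𝔽 (Set.range A)).map (restr 𝔽 X) := by
    rw [Submodule.map_span, ← Set.range_comp]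
    rfl
  unfold colrk rk
  rw [← e1, ← e2, ← h1, h2]

omit [Fintype ι] in
lemma colrk_span {κ : Type} [Fintype κ] (A : Matrix κ ι 𝔽) (F : Finset ι) (e : ι) :
    colrk A (insert e F) = colrk A F + 1 ∨
      ∀ X : Finset ι, colrk A (X ∪ insert e F) = colrk A (X ∪ F) := by
  set c : ι → κ → 𝔽 := fun j i => A i j with hc
  by_cases h : c e ∈ Submodule.span 𝔽 (c '' (F : Set ι))
  · right
    intro X
    unfold colrk
    have : Submodule.span 𝔽 (c '' ((X ∪ insert e F : Finset ι) : Set ι)) =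
        Submodule.span 𝔽 (c '' ((X ∪ F : Finset ι) : Set ι)) := by
      rw [Finset.union_insert, Finset.coe_insert, Set.image_insert_eq]
      apply Submodule.span_insert_eq_span
      exact Submodule.span_mono (Set.image_mono (by simp)) h
    rw [this]
  · left
    unfold colrk
    rw [Finset.coe_insert, Set.image_insert_eq, Submodule.span_insert, sup_comm]
    have hne : c e ≠ 0 := fun h0 => h (h0 ▸ Submodule.zero_mem _)
    have hdis : Disjoint (Submodule.span 𝔽 (c '' (F : Set ι))) (Submodule.span 𝔽 {c e}) :=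
      (Submodule.disjoint_span_singleton' hne).2 h
    have := Submodule.finrank_sup_add_finrank_inf_eq (Submodule.span 𝔽 (c '' (F : Set ι)))
      (Submodule.span 𝔽 {c e})
    rw [hdis.eq_bot, finrank_bot, finrank_span_singleton hne] at this
    simpa using this

open Classical in
/-- Zero-freeness of the characteristic polynomial outside a disc of radius linear in `k`. -/
theorem root_bound {κ : Type} [Fintype κ] (A : Matrix κ ι 𝔽)
    (hA : ∀ j, ∃ i, A i j ≠ 0) (d : ℕ) (s : Set (ι → 𝔽))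
    (hspan : Submodule.span 𝔽 s = Submodule.span 𝔽 (Set.range A))
    (hs : ∀ v ∈ s, (Finset.univ.filter (fun j => v j ≠ 0)).card ≤ d + 1) (q : ℂ)
    (hq : ∑ X : Finset ι, (-1 : ℂ) ^ X.card * q ^ (colrk A Finset.univ - colrk A X) = 0) :
    ‖q‖ ≤ Real.exp 1 * (2 * d + 1) := by
  by_contra hcon
  push Not at hcon
  have hpos : 0 < Real.exp 1 * (2 * (d : ℝ) + 1) := by positivity
  have hq0 : q ≠ 0 := by
    intro h
    rw [h, norm_zero] at hcon
    linarith
  have hr : colrk A = rk (Submodule.span 𝔽 s) := by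
    funext X
    rw [colrk_eq, hspan]
  have hne := Zf_ne_zero (colrk A) (defect s) d q⁻¹
    (by
      rw [norm_inv, inv_mul_lt_iff₀ (norm_pos_iff.2 hq0), mul_one]
      exact hcon)
    (by simp [colrk])
    (colrk_span A)
    (fun e => by
      obtain ⟨i, hi⟩ := hA e
      unfold colrk
      rw [Finset.coe_singleton, Set.image_singleton]
      apply finrank_span_singleton
      intro h
      exact hi (congrFun h i))
    (fun S F => by rw [hr]; unfold defect; omega)
    (fun S F h X hX => by rw [hr]; exact defect_zero s S F h X hX)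
    (fun S F hSF h => by rw [hr]; exact defect_pos s d hs S F hSF h)
    Finset.univ
  apply hne
  have hmul : q ^ colrk A Finset.univ * Zf (colrk A) q⁻¹ Finset.univ ∅ = 0 := by
    rw [← hq]
    unfold Zf
    rw [Finset.powerset_univ, Finset.mul_sum]
    refine Finset.sum_congr rfl fun X _ => ?_
    have hle : colrk A X ≤ colrk A Finset.univ := by
      rw [hr]
      exact rk_mono_right _ (Finset.subset_univ _)
    rw [Finset.union_empty, pow_sub₀ _ hq0 hle, inv_pow]
    ring
  exact (mul_eq_zero.1 hmul).resolve_left (pow_ne_zero _ hq0)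

end Pool.Agent.Lib.helper48.Matroid

end MrgPart1

-- marker of a merged file
example : 731051 + 741808 = 731051 + 741808 := rfl
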